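import Pool.Agent.H55.PB.Range
import Pool.Graph.R_pool_sql_team_seeded_2aa45f1a.Q310.FP.Gen
import Pool.Graph.R_pool_sql_team_seeded_c8625f6e.K4H51.PTM.Main

set_option autoImplicit false

/-!
# Curves and the pencils of lines through one of the points

The bounds of `MP_d3128a_ag.PencilWindow` in terms of the numbers `nth`.
-/

namespace Pool.Agent.H16.PN

open MvPolynomial Module Pool.Agent.TH167 Pool.Agent.K4H28.SP Pool.Agent.H55.PB

/-- The multiplicities of `D + j (H - E p)`. -/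
def shift {s : ℕ} (u : Fin s → ℕ) (p : Fin s) (j : ℕ) : Fin s → ℕ :=
  Function.update u p (u p + j)

/-- The bound for `h⁰ + h¹`. -/
def Pencil (h0 : ℕ) (h1 e : ℤ) (b : ℕ) : Prop :=
  2 ≤ b ∧ 2 * ((h0 : ℤ) + h1) ≤ ((b : ℤ) - 1) * (2 * e - b) + 2

theorem Pencil.mono {h0 : ℕ} {h1 e : ℤ} {b b' : ℕ} (h : Pencil h0 h1 e b) (hb : b ≤ b')
    (hbe : (b' : ℤ) ≤ e + 1) : Pencil h0 h1 e b' := by
  obtain ⟨h2, h3⟩ := h
  refine ⟨by omega, h3.trans ?_⟩
  rcases Nat.eq_or_lt_of_le hb with h4 | h4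
  · rw [h4]
  · have h5 : (b : ℤ) + 1 ≤ b' := by exact_mod_cast h4
    have h6 : (0 : ℤ) ≤ ((b' : ℤ) - b) * (2 * e + 1 - b - b') :=
      mul_nonneg (by linarith) (by linarith)
    nlinarith

theorem of_base {s d b : ℕ} {u : Fin s → ℕ} {p : Fin s} {T : Finset (Fin s)} (hp : p ∈ T)
    (hT : ∀ i, i ∉ T → u i ≤ b) (hbd : u p + b ≤ d + 1) (hd : u p ≤ d)
    (hbase : Base u p (d - u p) T d) (hpos : 1 ≤ gd u d) :
    ((gd u d : ℤ) ≠ SH.chi d u → Pencil (gd u d) (gd u d - SH.chi d u) (d - u p) b) ∧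
    ∀ j, b ≤ j + 1 → (gd (shift u p j) (d + j) : ℤ) = SH.chi (d + j) (shift u p j) := by
  constructor
  · intro hne
    have h3 := gd_ge (m := u) (d := d)
    obtain ⟨x, hx⟩ : ∃ x, gd u d + ∑ i : Fin s, (u i + 1).choose 2 =
        (d + 2).choose 2 + x := ⟨_, (Nat.add_sub_of_le h3).symm⟩
    have hc := SH.chi_cast d u
    have ex : (gd u d : ℤ) - SH.chi d u = x := by
      rw [hc]
      omega
    have hx0 : 1 ≤ x := by
      rcases Nat.eq_zero_or_pos x with h | h
      · rw [h] at ex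
        exact absurd (by push_cast at ex; linarith) hne
      · exact h
    obtain ⟨h4, h5⟩ := joint (m := u) (e := d - u p) (b := b) hp hT (by omega)
      (show u p + (d - u p) = d by omega) hbase hpos hx hx0
    refine ⟨h4, ?_⟩
    obtain ⟨c, rfl⟩ : ∃ c, b = c + 1 := ⟨b - 1, by omega⟩
    rw [Nat.add_sub_cancel] at h5
    have h6 : ((d - u p : ℕ) : ℤ) = (d : ℤ) - u p := Int.ofNat_sub hd
    have h8 : (2 * ((gd u d : ℤ) + x) + c * c + c) ≤
        2 + 2 * c * ((d - u p : ℕ) : ℤ) := by exact_mod_cast h5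
    rw [h6] at h8
    rw [ex]
    push_cast
    linarith
  · intro j hj
    have h1 := nonspecial (m := u) (e := d - u p) (b := b) hp hT (by omega) (Nat.sub_le _ _) hbase
      (j := d + j) (by omega) (by
        have h2 := (seq_inst (m := u) (p := p) (e := d - u p)).mono
          (show d ≤ d + j - (b - 1) by omega)
        have h3 : GG u p (d - u p) d = gd u d := by
          unfold GG
          rw [fam_eq (show u p + (d - u p) = d by omega)]
        omega)
    have h2 : fam u p (d - u p) (d + j) = shift u p j := by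
      unfold fam shift
      congr 1
      omega
    unfold GG cc at h1
    rw [h2] at h1
    rw [SH.chi_cast]
    omega

/-- All classes: the other multiplicities are at most `b`. -/
theorem one {s d b : ℕ} {u : Fin s → ℕ} {p : Fin s} (hT : ∀ i, i ≠ p → u i ≤ b)
    (hbd : u p + b ≤ d + 1) (hd : u p ≤ d) (hpos : 1 ≤ gd u d) :
    ((gd u d : ℤ) ≠ SH.chi d u → Pencil (gd u d) (gd u d - SH.chi d u) (d - u p) b) ∧
    ∀ j, b ≤ j + 1 → (gd (shift u p j) (d + j) : ℤ) = SH.chi (d + j) (shift u p j) :=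
  of_base (Finset.mem_singleton_self p) (fun i hi => hT i fun h => hi (h ▸ Finset.mem_singleton_self p))
    hbd hd base_one hpos

/-- Standard classes. -/
theorem standard {s d b : ℕ} (hs : 3 ≤ s) {u : Fin s → ℕ} (hred : SH.Reduced d u) {p : Fin s}
    {T : Finset (Fin s)} (hp : p ∈ T) (hT3 : ∑ i ∈ T, u i ≤ 3 * d) (hT : ∀ i, i ∉ T → u i ≤ b)
    (hbd : u p + b ≤ d + 1) (hpos : 1 ≤ gd u d) :
    ((gd u d : ℤ) ≠ SH.chi d u → Pencil (gd u d) (gd u d - SH.chi d u) (d - u p) b) ∧
    ∀ j, b ≤ j + 1 → (gd (shift u p j) (d + j) : ℤ) = SH.chi (d + j) (shift u p j) := by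
  have hr : Red3 d u := Pool.Agent.K4H51.PTM.red3_of hs hred
  have hpd : u p ≤ d := hr.1 p
  exact of_base hp hT hbd hpd (base_range hr (by omega) hp hT3) hpos

/-- Standard classes, the tenth multiplicity and a point of the largest multiplicity. -/
theorem tenth {s d : ℕ} (hs : 4 ≤ s) {u : Fin s → ℕ} (hred : SH.Reduced d u) {p : Fin s}
    (hp : ∀ i, u i ≤ u p) (hpos : 1 ≤ gd u d) :
    ((gd u d : ℤ) ≠ SH.chi d u →
      Pencil (gd u d) (gd u d - SH.chi d u) (d - u p) (Pool.Agent.K4H51.PTM.nth 9 u)) ∧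
    ∀ j, Pool.Agent.K4H51.PTM.nth 9 u ≤ j + 1 →
      (gd (shift u p j) (d + j) : ℤ) = SH.chi (d + j) (shift u p j) := by
  classical
  obtain ⟨r, rfl⟩ : ∃ r, s = r + 4 := ⟨s - 4, by omega⟩
  set b := Pool.Agent.K4H51.PTM.nth 9 u with hb
  have hr : Red3 d u := Pool.Agent.K4H51.PTM.red3_of (by omega) hred
  have hcard := Pool.Agent.K4H51.PTM.nth_spec 9 u
  rw [← hb] at hcard
  -- the set
  have hc : (insert p (Finset.univ.filter fun i => b < u i)).card ≤ 9 := by
    by_cases h : p ∈ Finset.univ.filter fun i => b < u i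
    · rw [Finset.insert_eq_of_mem h]
      exact hcard
    · have h1 : (Finset.univ.filter fun i => b < u i) = ∅ := by
        refine Finset.eq_empty_of_forall_notMem fun i hi => h ?_
        have h2 := (Finset.mem_filter.1 hi).2
        exact Finset.mem_filter.2 ⟨Finset.mem_univ _, lt_of_lt_of_le h2 (hp i)⟩
      rw [h1]
      simp
  have h3 : ∑ i ∈ insert p (Finset.univ.filter fun i => b < u i), u i ≤ 3 * d :=
    TT.red_sum hred 3 _ hc
  -- the second multiplicity
  have h4 : u p + b ≤ d + 1 := by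
    by_cases h5 : ∃ i, i ≠ p ∧ b ≤ u i
    · obtain ⟨i, hi, hbi⟩ := h5
      have := hr.2.1 i p hi
      omega
    · push Not at h5
      rcases Nat.eq_zero_or_pos b with h6 | h6
      · have := hr.1 p
        omega
      · exfalso
        have h7 : Pool.Agent.K4H51.PTM.nth 9 u ≤ b - 1 := by
          refine Nat.sInf_le ?_
          show (Finset.univ.filter fun i => b - 1 < u i).card ≤ 9
          refine le_trans (Finset.card_le_card (t := {p}) fun i hi => ?_) (by simp)
          have h8 := (Finset.mem_filter.1 hi).2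
          by_contra h9
          have := h5 i fun h => h9 (h ▸ Finset.mem_singleton_self p)
          omega
        omega
  exact standard (by omega) hred (Finset.mem_insert_self _ _) h3 (fun i hi => by
    by_contra hcon
    push Not at hcon
    exact hi (Finset.mem_insert_of_mem (Finset.mem_filter.2 ⟨Finset.mem_univ _, hcon⟩))) h4 hpos

open Pool.Agent.TH167.SHDefs in
/-- The system of a negative curve consists of this curve. -/
theorem neg_dim {K : Type} [Field K] {s : ℕ} {P : Fin s → Fin 2 → K}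
    (hP : Function.Injective P) {C : MvPolynomial (Fin 3) K} {e : ℕ} {u : Fin s → ℕ}
    (hC : Curve P C e u) (hneg : inter e u e u < 0) :
    Module.finrank K ↥(W609.CR.VS (fun j => W609.CR.aff (P j)) u e) = 1 := by
  classical
  obtain ⟨h1, h2, h3⟩ := SH.curve_iff.1 hC
  have hmem : C ∈ W609.CR.VS (fun j => W609.CR.aff (P j)) u e :=
    (SH.mem_VS _ _ _ _).2 ⟨h2, fun j => (h3 j).1⟩
  have hfin := W609.CR.vs_fin (fun j => W609.CR.aff (P j)) u e
  refine le_antisymm ?_ (Module.finrank_pos_iff.2 ⟨⟨C, hmem⟩, 0, fun h7 => h1.ne_zero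
    (congrArg Subtype.val h7)⟩)
  refine finrank_le_one (⟨C, hmem⟩ : ↥(W609.CR.VS (fun j => W609.CR.aff (P j)) u e)) fun f => ?_
  obtain ⟨f, hf⟩ := f
  by_cases hf0 : f = 0
  · refine ⟨0, Subtype.ext ?_⟩
    show (0 : K) • C = f
    rw [hf0, zero_smul]
  have hf' := (SH.mem_VS _ _ _ _).1 hf
  have hdvd : C ∣ f := by
    by_contra hnd
    have h4 := SH.bez hP h1 h2 (fun j => (h3 j).1) hf0 hf'.1 hf'.2 hnd
    have h5 : (∑ j, (u j : ℤ) * u j) ≤ (e : ℤ) * e := by exact_mod_cast h4
    unfold inter at hneg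
    linarith
  obtain ⟨H, rfl⟩ := hdvd
  have hH0 : H ≠ 0 := by
    rintro rfl
    exact hf0 (mul_zero _)
  have h5 : (C * H).totalDegree = e := hf'.1.totalDegree (mul_ne_zero h1.ne_zero hH0)
  have h6 : C.totalDegree = e := h2.totalDegree h1.ne_zero
  rw [MvPolynomial.totalDegree_mul_of_isDomain h1.ne_zero hH0, h6] at h5
  have h7 : H.totalDegree = 0 := by omega
  rw [totalDegree_eq_zero_iff_eq_C] at h7
  refine ⟨coeff 0 H, Subtype.ext ?_⟩
  show coeff 0 H • C = C * H
  conv_rhs => rw [h7]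
  rw [MvPolynomial.smul_eq_C_mul, mul_comm]

end Pool.Agent.H16.PN
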