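import Pool.Agent.H16.PN.Core

set_option autoImplicit false

/-!
# Standard classes: the criterion with pencils of lines and the tenth multiplicity
-/

namespace Pool.Agent.H16.PN

open MvPolynomial Module Pool.Agent.TH167 Pool.Agent.K4H28.SP Pool.Agent.H55.PB

/-- The points of multiplicity larger than the tenth one, and a point of the largest one. -/
theorem tenth_set {s d : ℕ} (hs : 4 ≤ s) {u : Fin s → ℕ} (hred : SH.Reduced d u) {p : Fin s}
    (hp : ∀ i, u i ≤ u p) : ∃ T : Finset (Fin s), p ∈ T ∧ ∑ i ∈ T, u i ≤ 3 * d ∧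
      (∀ i, i ∉ T → u i ≤ Pool.Agent.K4H51.PTM.nth 9 u) ∧
      u p + Pool.Agent.K4H51.PTM.nth 9 u ≤ d + 1 := by
  classical
  obtain ⟨r, rfl⟩ : ∃ r, s = r + 4 := ⟨s - 4, by omega⟩
  set b := Pool.Agent.K4H51.PTM.nth 9 u with hb
  have hr : Red3 d u := Pool.Agent.K4H51.PTM.red3_of (by omega) hred
  have hcard := Pool.Agent.K4H51.PTM.nth_spec 9 u
  rw [← hb] at hcard
  -- the set
  have hc : (insert p (Finset.univ.filter fun i => b < u i)).card ≤ 9 := by
    by_cases h : p ∈ Finset.univ.filter fun i => b < u i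
    · rw [Finset.insert_eq_of_mem h]
      exact hcard
    · have h1 : (Finset.univ.filter fun i => b < u i) = ∅ := by
        refine Finset.eq_empty_of_forall_notMem fun i hi => h ?_
        have h2 := (Finset.mem_filter.1 hi).2
        exact Finset.mem_filter.2 ⟨Finset.mem_univ _, lt_of_lt_of_le h2 (hp i)⟩
      rw [h1]
      simp
  have h3 : ∑ i ∈ insert p (Finset.univ.filter fun i => b < u i), u i ≤ 3 * d :=
    TT.red_sum hred 3 _ hc
  -- the second multiplicity
  have h4 : u p + b ≤ d + 1 := by
    by_cases h5 : ∃ i, i ≠ p ∧ b ≤ u i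
    · obtain ⟨i, hi, hbi⟩ := h5
      have := hr.2.1 i p hi
      omega
    · push Not at h5
      rcases Nat.eq_zero_or_pos b with h6 | h6
      · have := hr.1 p
        omega
      · exfalso
        have h7 : Pool.Agent.K4H51.PTM.nth 9 u ≤ b - 1 := by
          refine Nat.sInf_le ?_
          show (Finset.univ.filter fun i => b - 1 < u i).card ≤ 9
          refine le_trans (Finset.card_le_card (t := {p}) fun i hi => ?_) (by simp)
          have h8 := (Finset.mem_filter.1 hi).2
          by_contra h9
          have := h5 i fun h => h9 (h ▸ Finset.mem_singleton_self p)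
          omega
        omega
  exact ⟨_, Finset.mem_insert_self _ _, h3, fun i hi => by
    by_contra hcon
    push Not at hcon
    exact hi (Finset.mem_insert_of_mem (Finset.mem_filter.2 ⟨Finset.mem_univ _, hcon⟩)), h4⟩

/-- If the class minus enough pencils of lines is effective, the class is not special. -/
theorem crit {s d : ℕ} (hs : 4 ≤ s) {u κ : Fin s → ℕ} (hred : SH.Reduced d u)
    (hκ : Pool.Agent.K4H51.PTM.nth 9 u ≤ ∑ i, κ i + 1) (hκd : ∑ i, κ i ≤ d)
    (hne : 1 ≤ gd (fun i => u i - κ i) (d - ∑ i, κ i)) : (gd u d : ℤ) = SH.chi d u := by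
  obtain ⟨p, hp, -⟩ := Pool.Agent.K4H51.PTM.exists_max (show 0 < s by omega) u
  have hmax : ∀ i, u i ≤ u p := fun i => by
    rw [hp]
    exact Pool.Agent.K4H51.PTM.le_nth_zero u i
  obtain ⟨T, t1, t2, t3, t4⟩ := tenth_set hs hred hmax
  have h1 := criterion (Pool.Agent.K4H51.PTM.red3_of (by omega) hred) (κ := κ) t1 t2 t3
    (fun i => by
      have := hmax i
      omega) hκ hκd hne
  rw [SH.chi_cast]
  omega

end Pool.Agent.H16.PN
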